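import Pool.Agent.W788.NW.Stm

/-! NW-ENE: the energy and the total square gradient (helper382) -/

open Finset

namespace Pool.Agent.W382.NW

open Pool.Agent.W788.NV Pool.Agent.W788.NW

/-- the square gradient at the site `v` -/
noncomputable def cg {V : Type} [Fintype V] [DecidableEq V] {q : ℕ} (f : (V → Fin q) → ℝ)
    (x : V → Fin q) (v : V) : ℝ := ∑ a, ∑ b,
      (f (Function.update x v a) - f (Function.update x v b)) ^ 2

theorem tg_eq {V : Type} [Fintype V] [DecidableEq V] {q : ℕ} (μ f : (V → Fin q) → ℝ) :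
    tg μ f = mean μ (fun x => ∑ v, cg f x v) := by
  unfold tg mean cg
  simp only [Finset.mul_sum]
  have h1 : ∀ (F : Fin q → Fin q → V → (V → Fin q) → ℝ),
      ∑ a, ∑ b, ∑ v, ∑ x, F a b v x = ∑ x, ∑ v, ∑ a, ∑ b, F a b v x := by
    intro F
    calc ∑ a, ∑ b, ∑ v, ∑ x, F a b v x = ∑ a, ∑ b, ∑ x, ∑ v, F a b v x :=
          sum_congr rfl fun a _ => sum_congr rfl fun b _ => sum_comm
      _ = ∑ a, ∑ x, ∑ b, ∑ v, F a b v x := sum_congr rfl fun a _ => sum_comm
      _ = ∑ x, ∑ a, ∑ b, ∑ v, F a b v x := sum_comm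
      _ = ∑ x, ∑ a, ∑ v, ∑ b, F a b v x :=
          sum_congr rfl fun x _ => sum_congr rfl fun a _ => sum_comm
      _ = ∑ x, ∑ v, ∑ a, ∑ b, F a b v x := sum_congr rfl fun x _ => sum_comm
  exact h1 _

theorem sq_le_cg {V : Type} [Fintype V] [DecidableEq V] {q : ℕ} (f : (V → Fin q) → ℝ)
    (x : V → Fin q) (v : V) (a b : Fin q) :
    (f (Function.update x v a) - f (Function.update x v b)) ^ 2 ≤ cg f x v := by
  unfold cg
  refine le_trans ?_ (single_le_sum (f := fun a => ∑ b,
    (f (Function.update x v a) - f (Function.update x v b)) ^ 2)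
    (fun a _ => sum_nonneg fun b _ => sq_nonneg _) (mem_univ a))
  exact single_le_sum (f := fun b =>
    (f (Function.update x v a) - f (Function.update x v b)) ^ 2) (fun b _ => sq_nonneg _)
    (mem_univ b)

theorem cg_le {V : Type} [Fintype V] [DecidableEq V] {q : ℕ} (f : (V → Fin q) → ℝ)
    (x : V → Fin q) (v : V) :
    cg f x v ≤ 4 * q * ∑ c, (f (Function.update x v c) - f x) ^ 2 := by
  unfold cg
  have h1 : ∀ a b : Fin q, (f (Function.update x v a) - f (Function.update x v b)) ^ 2 ≤
      2 * (f (Function.update x v a) - f x) ^ 2 + 2 * (f (Function.update x v b) - f x) ^ 2 := by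
    intro a b
    nlinarith [sq_nonneg ((f (Function.update x v a) - f x) + (f (Function.update x v b) - f x))]
  refine (sum_le_sum fun a _ => sum_le_sum fun b _ => h1 a b).trans (le_of_eq ?_)
  simp only [sum_add_distrib, sum_const, card_univ, Fintype.card_fin, nsmul_eq_mul, ← mul_sum]
  ring

theorem ene_ (h1 : S_TOT) : S_ENE := by
  intro V _ _ G q θ hq ht0 ht1 hd μ f hμ
  obtain ⟨hr, hT⟩ := h1 V G q θ hq ht0.le ht1 hd
  rw [tg_eq]
  unfold mean
  have hq0 : (0 : ℝ) < q := by exact_mod_cast hq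
  constructor
  · refine sum_le_sum fun x _ => mul_le_mul_of_nonneg_left ?_ (hμ x)
    show _ ≤ ∑ v, cg f x v
    rw [← hT (fun v => cg f x v)]
    unfold gam
    refine sum_le_sum fun e _ => mul_le_mul_of_nonneg_left ?_ (hr e)
    rcases e with p | p
    · have h2 := sq_le_cg f x p.1 p.2 (x p.1)
      rw [Function.update_eq_self] at h2
      exact h2
    · have h2 := sq_le_cg f x p.1 (x p.2) (x p.1)
      rw [Function.update_eq_self] at h2
      exact h2
  · rw [mul_sum]
    refine sum_le_sum fun x _ => ?_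
    have h2 : θ / (4 * q ^ 2) * (∑ v, cg f x v) ≤
        gam (mrate G q θ) (act (V := V) (q := q)) f x := by
      unfold gam
      rw [Fintype.sum_sum_type]
      have h3 : 0 ≤ ∑ p : V × V, mrate G q θ (Sum.inr p) * (f (act (Sum.inr p) x) - f x) ^ 2 :=
        sum_nonneg fun p _ => mul_nonneg (hr _) (sq_nonneg _)
      have h4 : θ / (4 * q ^ 2) * (∑ v, cg f x v) ≤
          ∑ p : V × Fin q, mrate G q θ (Sum.inl p) * (f (act (Sum.inl p) x) - f x) ^ 2 := by
        rw [Fintype.sum_prod_type, mul_sum]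
        refine sum_le_sum fun v _ => ?_
        have h5 : ∑ c : Fin q, mrate G q θ (Sum.inl (v, c)) *
            (f (act (Sum.inl (v, c)) x) - f x) ^ 2 =
            θ / q * ∑ c, (f (Function.update x v c) - f x) ^ 2 := by
          rw [mul_sum]
          rfl
        rw [h5]
        refine (mul_le_mul_of_nonneg_left (cg_le f x v) (by positivity)).trans (le_of_eq ?_)
        field_simp
      linarith
    calc θ / (4 * q ^ 2) * (μ x * ∑ v, cg f x v) = μ x * (θ / (4 * q ^ 2) * ∑ v, cg f x v) := by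
          ring
      _ ≤ _ := mul_le_mul_of_nonneg_left h2 (hμ x)

end Pool.Agent.W382.NW
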